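import Pool.Agent.E8helper59.TS.Stm4

/-!
# Project TS: piece TS36 (S_JMAX), a basis of largest determinant
-/

set_option autoImplicit false
open Set

namespace Pool.Agent.E8helper83.TS

open Pool.Agent.E8helper59.TS

/-- the determinant of a matrix that differs from the identity in few rows -/
lemma det_rep {d m : ℕ} (g : Fin m → Fin d) (hg : Function.Injective g) (X : Fin m → Fin d → ℝ)
    (N : Matrix (Fin d) (Fin d) ℝ) (h1 : ∀ c s, N (g c) s = X c s)
    (h2 : ∀ r, (∀ c, r ≠ g c) → ∀ s, N r s = if r = s then 1 else 0) :
    N.det = (Matrix.of fun c c' => X c (g c')).det := by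
  let U : Matrix (Fin d) (Fin m) ℝ := Matrix.of fun r c => if r = g c then 1 else 0
  let V : Matrix (Fin m) (Fin d) ℝ := Matrix.of fun c s => X c s - if s = g c then 1 else 0
  have hN : N = 1 + U * V := by
    ext r s
    rw [Matrix.add_apply, Matrix.mul_apply, Matrix.one_apply]
    by_cases hr : ∃ c, r = g c
    · obtain ⟨c, rfl⟩ := hr
      rw [h1, Finset.sum_eq_single c]
      · simp only [U, V, Matrix.of_apply, if_true, one_mul]
        by_cases hs : g c = s
        · rw [if_pos hs, if_pos hs.symm]
          ring
        · rw [if_neg hs, if_neg (Ne.symm hs)]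
          ring
      · intro c' _ hc'
        have hne : g c ≠ g c' := fun h => hc' (hg h).symm
        simp only [U, Matrix.of_apply, if_neg hne, zero_mul]
      · intro h
        exact absurd (Finset.mem_univ c) h
    · rw [not_exists] at hr
      rw [h2 r hr, Finset.sum_eq_zero, add_zero]
      intro c _
      simp only [U, Matrix.of_apply, if_neg (hr c), zero_mul]
  have hV : 1 + V * U = Matrix.of fun c c' => X c (g c') := by
    ext c c'
    rw [Matrix.add_apply, Matrix.mul_apply, Matrix.one_apply, Finset.sum_eq_single (g c')]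
    · simp only [U, V, Matrix.of_apply, if_true, mul_one]
      by_cases hc : c = c'
      · rw [if_pos hc, hc, if_pos rfl]
        ring
      · have hne : g c' ≠ g c := fun h => hc (hg h).symm
        rw [if_neg hc, if_neg hne]
        ring
    · intro s _ hs
      simp only [U, Matrix.of_apply, if_neg hs, mul_zero]
    · intro h
      exact absurd (Finset.mem_univ _) h
  rw [hN, Matrix.det_one_add_mul_comm, hV]

theorem t_JMAX : S_JMAX := by
  intro d n u hu
  let D : (Fin d → Fin n) → ℝ := fun J => (Matrix.of fun j => u (J j)).det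
  obtain ⟨J0, hJ0⟩ : ∃ J : Fin d → Fin n, D J ≠ 0 := by
    obtain ⟨κ, a, ha, hsp, hli⟩ := exists_linearIndependent' ℝ u
    rw [hu] at hsp
    haveI : Finite κ := Finite.of_injective a ha
    haveI : Fintype κ := Fintype.ofFinite κ
    let b := Module.Basis.mk hli hsp.ge
    have hc : Fintype.card κ = d := by
      rw [← Module.finrank_eq_card_basis b, Module.finrank_fin_fun]
    let e : Fin d ≃ κ := (Fintype.equivFinOfCardEq hc).symm
    refine ⟨a ∘ e, ?_⟩
    have hli2 : LinearIndependent ℝ (fun j => u ((a ∘ e) j)) := hli.comp e e.injective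
    have h3 : IsUnit (Matrix.of fun j => u ((a ∘ e) j)) :=
      Matrix.linearIndependent_rows_iff_isUnit.1 hli2
    exact ((Matrix.isUnit_iff_isUnit_det _).1 h3).ne_zero
  haveI : Nonempty (Fin d → Fin n) := ⟨J0⟩
  obtain ⟨J, hJ⟩ := Finite.exists_max (fun J => |D J|)
  have hJne : D J ≠ 0 := by
    intro h
    have h1 := hJ J0
    simp only [h, abs_zero] at h1
    exact hJ0 (abs_nonpos_iff.1 h1)
  set M : Matrix (Fin d) (Fin d) ℝ := Matrix.of fun j => u (J j) with hM
  have hMu : IsUnit M.det := isUnit_iff_ne_zero.2 hJne
  let C : Fin n → Fin d → ℝ := fun i => Matrix.vecMul (u i) M⁻¹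
  have hCM : ∀ i, Matrix.vecMul (C i) M = u i := by
    intro i
    show Matrix.vecMul (Matrix.vecMul (u i) M⁻¹) M = u i
    rw [Matrix.vecMul_vecMul, Matrix.nonsing_inv_mul _ hMu, Matrix.vecMul_one]
  have hCJ : ∀ r s, C (J r) s = if r = s then 1 else 0 := by
    intro r s
    have h1 : (M * M⁻¹) r s = C (J r) s := by
      rw [Matrix.mul_apply]
      rfl
    rw [← h1, Matrix.mul_nonsing_inv _ hMu, Matrix.one_apply]
  have key : ∀ J' : Fin d → Fin n, |(Matrix.of fun r => C (J' r)).det| ≤ 1 := by
    intro J'
    have h1 : (Matrix.of fun r => u (J' r)) = (Matrix.of fun r => C (J' r)) * M := by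
      ext r s
      rw [Matrix.mul_apply]
      exact (congrFun (hCM (J' r)) s).symm
    have h2 : D J' = (Matrix.of fun r => C (J' r)).det * D J := by
      show Matrix.det _ = _
      rw [h1, Matrix.det_mul]
    have h3 : |D J'| ≤ |D J| := hJ J'
    rw [h2, abs_mul] at h3
    have h4 : 0 < |D J| := abs_pos.2 hJne
    by_contra hc
    rw [not_le] at hc
    nlinarith
  refine ⟨J, C, ?_, ?_, ?_, ?_⟩
  · exact Matrix.linearIndependent_rows_iff_isUnit.2 ((Matrix.isUnit_iff_isUnit_det _).2 hMu)
  · intro i
    funext k
    rw [← congrFun (hCM i) k, Finset.sum_apply]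
    rfl
  · intro i j
    have h := key (fun r => if r = j then i else J r)
    rw [det_rep (m := 1) (fun _ => j) (Function.injective_of_subsingleton _) (fun _ => C i)] at h
    · simpa using h
    · intro c s
      simp only [Matrix.of_apply, if_true]
    · intro r hr s
      simp only [Matrix.of_apply, if_neg (hr 0), hCJ]
  · intro i i' j k
    rcases eq_or_ne j k with rfl | hjk
    · rw [mul_comm (C i j), sub_self, abs_zero]
      exact zero_le_one
    · have h := key (fun r => if r = j then i else if r = k then i' else J r)
      rw [det_rep (m := 2) ![j, k] (by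
        intro x y hxy
        fin_cases x <;> fin_cases y
        · rfl
        · exact absurd hxy hjk
        · exact absurd hxy hjk.symm
        · rfl) ![C i, C i']] at h
      · rw [Matrix.det_fin_two] at h
        simpa using h
      · intro c s
        fin_cases c
        · simp
        · simp [hjk.symm]
      · intro r hr s
        have h0 : r ≠ j := hr 0
        have h1 : r ≠ k := hr 1
        simp only [Matrix.of_apply, if_neg h0, if_neg h1, hCJ]

end Pool.Agent.E8helper83.TS
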